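import Mathlib
import Pool.Agent.TH387.EX.Core
import Pool.Agent.K7.H55.SY.All

set_option autoImplicit false

/-!
# Q1 for every number `r ≥ 10` of points at once, for multiplicities with bounded gaps

There is an `L` such that any `L` consecutive natural numbers contain an `m` with the following
property: for EVERY `r ≥ 10`, a general set `Y` of `r` points of the complex projective plane and every
degree `d`, the scheme `m Y` is `AH₂(d)` and the equivalence of Q1 holds. One such multiplicity is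
`m = 30559034`.
-/

namespace Pool.Agent.Results.MP_8707bd_ag.AllNumbersOfPoints

open MvPolynomial Pool.Agent.TH387.EX

/-- For a general set `Y` of `r` points (one nonempty open set), `m Y` is `AH₂(d)` and the equivalence
of Q1 holds in every degree `d`. -/
def Settled (r m : ℕ) : Prop :=
  ∃ Φ : MvPolynomial (Fin r × Fin 2) ℂ, Φ ≠ 0 ∧ ∀ Y : Fin r → Fin 2 → ℂ,
    MvPolynomial.eval (fun ij : Fin r × Fin 2 => Y ij.1 ij.2) Φ ≠ 0 →
      ∀ d : ℕ, IsAH Y m d ∧ Equivalence Y m d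

theorem settled_of {r m : ℕ} (hr : 10 ≤ r) (h : K7.H55.SY.Exp ℂ r m) : Settled r m := by
  obtain ⟨F, hF, hF'⟩ := h
  obtain ⟨Φ, hΦ, hΦ'⟩ := core hr (m := m) (S := Set.univ) ⟨F, hF, fun P hP d _ => hF' P hP d⟩
  exact ⟨Φ, hΦ, fun Y hY d => (hΦ' Y hY).1 d (Set.mem_univ d)⟩

/-- **Q1 for every `r ≥ 10` at once, for multiplicities with bounded gaps.** -/
theorem result :
    (∀ r : ℕ, 10 ≤ r → Settled r 30559034) ∧
    ∃ L : ℕ, ∀ M : ℕ, ∃ m : ℕ, M ≤ m ∧ m < M + L ∧ ∀ r : ℕ, 10 ≤ r → Settled r m := by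
  refine ⟨fun r hr => settled_of hr (K7.H55.SY.explicit ℂ r hr), ?_⟩
  obtain ⟨L, hL⟩ := K7.H55.SY.bounded_gaps ℂ
  refine ⟨L, fun M => ?_⟩
  obtain ⟨m, h1, h2, h3⟩ := hL M
  exact ⟨m, h1, h2, fun r hr => settled_of hr (h3 r hr)⟩

end Pool.Agent.Results.MP_8707bd_ag.AllNumbersOfPoints
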