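import Pool.Agent.TH387.EX.Core
import Pool.Agent.K7.H2.RR.GenE
import Pool.Agent.K7.H2.RR.CertA
import Pool.Agent.K7.H2.RR.CertEA
import Pool.Agent.K7.H2.RR.CertTA
import Pool.Agent.TH885.NW.Prop

set_option autoImplicit false

/-!
# Q1 for sixteen numbers of points between 15 and 35: both ends of the open window

Write `t = (2 d + 3) - √r (2 m + 1)`. For `r` general points of multiplicity `m` and
`r = 15, 17, 20, 22, 23, 24, 26, 27, ..., 35` the scheme `m Y` is `AH₂(d)` and the equivalence of Q1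
holds for `t ≤ - lo r` and for `t ≥ up r`, where `lo r` is between `0.34` and `0.596` (before: between
`0.873` and `1.17`) and `up r` between `0.155` and `0.524`. In particular the upper density of the
multiplicities which are not settled in every degree is at most `(lo r + up r) / 2`, which is `0.31` for
34 points and below one half for all of these numbers but 15 and 22.
-/

namespace Pool.Agent.Results.MP_8707bd_ag.BothEndsSixteenNumbers

open MvPolynomial Pool.Agent.TH387.EX Filter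

/-- For a general set `Y` of `r` points (one nonempty open set), `m Y` is `AH₂(d)` and the equivalence
of Q1 holds for all degrees `d` in the set `S`. -/
def Settled (r m : ℕ) (S : Set ℕ) : Prop :=
  ∃ Φ : MvPolynomial (Fin r × Fin 2) ℂ, Φ ≠ 0 ∧ ∀ Y : Fin r → Fin 2 → ℂ,
    MvPolynomial.eval (fun ij : Fin r × Fin 2 => Y ij.1 ij.2) Φ ≠ 0 →
      ∀ d ∈ S, IsAH Y m d ∧ Equivalence Y m d

/-- The triples of `r`, `1000 * lo r` and `1000 * up r`. -/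
def table : List (ℕ × ℕ × ℕ) :=
  [(15, 582, 524), (17, 489, 155), (20, 589, 192), (22, 596, 420), (23, 547, 220), (24, 475, 308),
    (26, 518, 299), (27, 532, 304), (28, 492, 473), (29, 387, 377), (30, 424, 318), (31, 442, 365),
    (32, 340, 333), (33, 443, 208), (34, 452, 167), (35, 394, 250)]

/-- the certificates of the entries of the table -/
theorem facts {r l u : ℕ} (h : (r, l, u) ∈ table) : 10 ≤ r ∧ ¬ IsSquare r ∧ K7.H2.RR.CerE r l ∧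
    K7.H2.RR.UpOK r u := by
  have key : ∀ (x : ℝ), (r : ℝ) ≤ x * x → 0 ≤ x → 500 ≤ (K7.H2.FO.thr r : ℝ) →
      ((K7.H2.FO.thr r : ℝ) / 500 - 1) * (x - 3) ≤ u / 1000 → K7.H2.RR.UpOK r u := by
    intro x h1 h2 h3 h4
    have h5 : Real.sqrt r ≤ x := Real.sqrt_le_iff.2 ⟨h2, by rw [pow_two]; exact h1⟩
    have h6 : ((K7.H2.FO.thr r : ℝ) / 500 - 1) * (Real.sqrt r - 3) ≤
        ((K7.H2.FO.thr r : ℝ) / 500 - 1) * (x - 3) :=
      mul_le_mul_of_nonneg_left (by linarith) (by linarith)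
    exact Or.inr (by linarith)
  simp only [table, List.mem_cons, Prod.mk.injEq, List.not_mem_nil, or_false] at h
  rcases h with ⟨rfl, rfl, rfl⟩ | ⟨rfl, rfl, rfl⟩ | ⟨rfl, rfl, rfl⟩ | ⟨rfl, rfl, rfl⟩ | ⟨rfl, rfl, rfl⟩ |
    ⟨rfl, rfl, rfl⟩ | ⟨rfl, rfl, rfl⟩ | ⟨rfl, rfl, rfl⟩ | ⟨rfl, rfl, rfl⟩ | ⟨rfl, rfl, rfl⟩ |
    ⟨rfl, rfl, rfl⟩ | ⟨rfl, rfl, rfl⟩ | ⟨rfl, rfl, rfl⟩ | ⟨rfl, rfl, rfl⟩ | ⟨rfl, rfl, rfl⟩ |
    ⟨rfl, rfl, rfl⟩
  · exact ⟨by norm_num, by decide +kernel, ⟨_, _, _, _, _, _, _, _, _, _, _, _, _, _, K7.H2.RR.e15, K7.H2.RR.f15⟩,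
      Or.inl ⟨_, _, _, _, _, _, _, _, _, _, K7.H2.RR.c15⟩⟩
  · exact ⟨by norm_num, by decide +kernel, ⟨_, _, _, _, _, _, _, _, _, _, _, _, _, _, K7.H2.RR.e17, K7.H2.RR.f17⟩,
      key 4.12311 (by norm_num) (by norm_num) (by norm_num [K7.H2.FO.thr]) (by norm_num [K7.H2.FO.thr])⟩
  · exact ⟨by norm_num, by decide +kernel, ⟨_, _, _, _, _, _, _, _, _, _, _, _, _, _, K7.H2.RR.e20, K7.H2.RR.f20⟩,
      key 4.47214 (by norm_num) (by norm_num) (by norm_num [K7.H2.FO.thr]) (by norm_num [K7.H2.FO.thr])⟩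
  · exact ⟨by norm_num, by decide +kernel, ⟨_, _, _, _, _, _, _, _, _, _, _, _, _, _, K7.H2.RR.e22, K7.H2.RR.f22⟩,
      key 4.69042 (by norm_num) (by norm_num) (by norm_num [K7.H2.FO.thr]) (by norm_num [K7.H2.FO.thr])⟩
  · exact ⟨by norm_num, by decide +kernel, ⟨_, _, _, _, _, _, _, _, _, _, _, _, _, _, K7.H2.RR.e23, K7.H2.RR.f23⟩,
      key 4.79584 (by norm_num) (by norm_num) (by norm_num [K7.H2.FO.thr]) (by norm_num [K7.H2.FO.thr])⟩
  · exact ⟨by norm_num, by decide +kernel, ⟨_, _, _, _, _, _, _, _, _, _, _, _, _, _, K7.H2.RR.e24, K7.H2.RR.f24⟩,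
      key 4.89898 (by norm_num) (by norm_num) (by norm_num [K7.H2.FO.thr]) (by norm_num [K7.H2.FO.thr])⟩
  · exact ⟨by norm_num, by decide +kernel, ⟨_, _, _, _, _, _, _, _, _, _, _, _, _, _, K7.H2.RR.e26, K7.H2.RR.f26⟩,
      key 5.09902 (by norm_num) (by norm_num) (by norm_num [K7.H2.FO.thr]) (by norm_num [K7.H2.FO.thr])⟩
  · exact ⟨by norm_num, by decide +kernel, ⟨_, _, _, _, _, _, _, _, _, _, _, _, _, _, K7.H2.RR.e27, K7.H2.RR.f27⟩,
      key 5.19616 (by norm_num) (by norm_num) (by norm_num [K7.H2.FO.thr]) (by norm_num [K7.H2.FO.thr])⟩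
  · exact ⟨by norm_num, by decide +kernel, ⟨_, _, _, _, _, _, _, _, _, _, _, _, _, _, K7.H2.RR.e28, K7.H2.RR.f28⟩,
      key 5.29151 (by norm_num) (by norm_num) (by norm_num [K7.H2.FO.thr]) (by norm_num [K7.H2.FO.thr])⟩
  · exact ⟨by norm_num, by decide +kernel, ⟨_, _, _, _, _, _, _, _, _, _, _, _, _, _, K7.H2.RR.e29, K7.H2.RR.f29⟩,
      key 5.38517 (by norm_num) (by norm_num) (by norm_num [K7.H2.FO.thr]) (by norm_num [K7.H2.FO.thr])⟩
  · exact ⟨by norm_num, by decide +kernel, ⟨_, _, _, _, _, _, _, _, _, _, _, _, _, _, K7.H2.RR.e30, K7.H2.RR.f30⟩,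
      key 5.47723 (by norm_num) (by norm_num) (by norm_num [K7.H2.FO.thr]) (by norm_num [K7.H2.FO.thr])⟩
  · exact ⟨by norm_num, by decide +kernel, ⟨_, _, _, _, _, _, _, _, _, _, _, _, _, _, K7.H2.RR.e31, K7.H2.RR.f31⟩,
      key 5.56777 (by norm_num) (by norm_num) (by norm_num [K7.H2.FO.thr]) (by norm_num [K7.H2.FO.thr])⟩
  · exact ⟨by norm_num, by decide +kernel, ⟨_, _, _, _, _, _, _, _, _, _, _, _, _, _, K7.H2.RR.e32, K7.H2.RR.f32⟩,
      Or.inl ⟨_, _, _, _, _, _, _, _, _, _, K7.H2.RR.c32⟩⟩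
  · exact ⟨by norm_num, by decide +kernel, ⟨_, _, _, _, _, _, _, _, _, _, _, _, _, _, K7.H2.RR.e33, K7.H2.RR.f33⟩,
      Or.inl ⟨_, _, _, _, _, _, _, _, _, _, K7.H2.RR.c33⟩⟩
  · exact ⟨by norm_num, by decide +kernel, ⟨_, _, _, _, _, _, _, _, _, _, _, _, _, _, K7.H2.RR.e34, K7.H2.RR.f34⟩,
      Or.inl ⟨_, _, _, _, _, _, _, _, _, _, K7.H2.RR.c34⟩⟩
  · exact ⟨by norm_num, by decide +kernel, ⟨_, _, _, _, _, _, _, _, _, _, _, _, _, _, K7.H2.RR.e35, K7.H2.RR.f35⟩,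
      Or.inl ⟨_, _, _, _, _, _, _, _, _, _, K7.H2.RR.c35⟩⟩

theorem settled {r l u : ℕ} (h : (r, l, u) ∈ table) {m : ℕ} (hm : 1 ≤ m) :
    Settled r m {d | 2 * (d : ℝ) + 3 - Real.sqrt r * (2 * m + 1) ≤ -((l : ℝ) / 1000) ∨
      (u : ℝ) / 1000 ≤ 2 * d + 3 - Real.sqrt r * (2 * m + 1)} := by
  obtain ⟨hr, hsq, hE, hU⟩ := facts h
  obtain ⟨F, hF, hF'⟩ := K7.H2.RR.expDim_window (L := ℂ) hr hsq hE hU hm
  obtain ⟨Φ, hΦ, hΦ'⟩ := core hr (m := m)
    (S := {d : ℕ | 2 * (d : ℝ) + 3 - Real.sqrt r * (2 * m + 1) ≤ -((l : ℝ) / 1000) ∨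
      (u : ℝ) / 1000 ≤ 2 * d + 3 - Real.sqrt r * (2 * m + 1)})
    ⟨F, hF, fun P hP d hd => hF' P hP d hd⟩
  exact ⟨Φ, hΦ, fun Y hY d hd => (hΦ' Y hY).1 d hd⟩

theorem density {r l u : ℕ} (h : (r, l, u) ∈ table) {c : ℝ} (hc : ((l : ℝ) + u) / 2000 < c) :
    ∀ᶠ M : ℕ in atTop,
      (Set.ncard {m : ℕ | 1 ≤ m ∧ m < M ∧ ¬ Settled r m Set.univ} : ℝ) ≤ c * M := by
  classical
  obtain ⟨hr, hsq, -⟩ := facts h
  have hirr : Irrational (Real.sqrt r) := irrational_sqrt_natCast_iff.2 hsq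
  obtain ⟨M0, hM0⟩ := TH885.NW.count_sharp hirr ((Real.sqrt r - 3) / 2) ((l : ℝ) / 1000 / 2)
    ((u : ℝ) / 1000 / 2) (by positivity) (sub_pos.2 hc)
  filter_upwards [eventually_ge_atTop ⌈M0⌉₊] with M hM
  have hM' : M0 ≤ M := (Nat.le_ceil M0).trans (by exact_mod_cast hM)
  have hset : {m : ℕ | 1 ≤ m ∧ m < M ∧ ¬ Settled r m Set.univ} =
      ↑((Finset.range M).filter fun m => 1 ≤ m ∧ ¬ Settled r m Set.univ) := by
    ext m
    simp only [Set.mem_ofPred_eq, Finset.coe_filter, Finset.mem_range]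
    tauto
  rw [hset, Set.ncard_coe_finset]
  have h1 := hM0 M hM' ((Finset.range M).filter fun m => 1 ≤ m ∧ ¬ Settled r m Set.univ)
    (fun m hm => Finset.mem_range.1 (Finset.mem_filter.1 hm).1) (fun m hm => by
      obtain ⟨h2, h3⟩ := (Finset.mem_filter.1 hm).2
      by_contra hcon
      push Not at hcon
      apply h3
      obtain ⟨Φ, hΦ, hΦ'⟩ := settled h h2
      refine ⟨Φ, hΦ, fun Y hY d _ => hΦ' Y hY d ?_⟩
      rcases le_or_gt (2 * (d : ℝ) + 3 - Real.sqrt r * (2 * m + 1)) (-((l : ℝ) / 1000)) with h4 | h4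
      · exact Or.inl h4
      · right
        have h5 := hcon d (by push_cast; linarith)
        push_cast at h5
        linarith)
  have e : (l : ℝ) / 1000 / 2 + (u : ℝ) / 1000 / 2 + (c - ((l : ℝ) + u) / 2000) = c := by ring
  rw [e] at h1
  exact h1

/-- **Q1 for sixteen numbers of points: both ends of the open window.** -/
theorem result :
    (∀ r l u : ℕ, (r, l, u) ∈ table → ∀ m : ℕ, 1 ≤ m →
      Settled r m {d | 2 * (d : ℝ) + 3 - Real.sqrt r * (2 * m + 1) ≤ -((l : ℝ) / 1000) ∨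
        (u : ℝ) / 1000 ≤ 2 * d + 3 - Real.sqrt r * (2 * m + 1)}) ∧
    (∀ r l u : ℕ, (r, l, u) ∈ table → ∀ c : ℝ, ((l : ℝ) + u) / 2000 < c → ∀ᶠ M : ℕ in atTop,
      (Set.ncard {m : ℕ | 1 ≤ m ∧ m < M ∧ ¬ Settled r m Set.univ} : ℝ) ≤ c * M) :=
  ⟨fun _ _ _ h _ hm => settled h hm, fun _ _ _ h _ hc => density h hc⟩

end Pool.Agent.Results.MP_8707bd_ag.BothEndsSixteenNumbers
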