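import Mathlib
import Pool.Agent.TH387.EX.Core
import Pool.Agent.K7.H2.FO.FinalE
import Pool.Agent.TH885.NW.Prop

set_option autoImplicit false

/-!
# Q1 for ten numbers of points between 12 and 26: the lower end of the open window

Write `t = (2 d + 3) - √r (2 m + 1)`. For `r` general points of multiplicity `m ≥ 43` and
`r = 12, 14, 17, 18, 19, 20, 22, 23, 24, 26` there are no curves of degree `d` for
`t < - lo r`, where `lo r` is between `0.155` and `0.982` (before: between `0.464` and `1.197`), so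
that `m Y` is `AH₂(d)` and the equivalence of Q1 holds in these degrees. Together with independence
from `t = up r` on, the upper density of the multiplicities which are not settled in every degree is
at most `(lo r + up r) / 2`, which is `0.1315` for twelve points.
-/

namespace Pool.Agent.Results.MP_8707bd_ag.EmptinessUpTo26

open MvPolynomial Pool.Agent.TH387.EX Filter

/-- For a general set `Y` of `r` points (one nonempty open set), `m Y` is `AH₂(d)` and the equivalence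
of Q1 holds for all degrees `d` in the set `S`. -/
def Settled (r m : ℕ) (S : Set ℕ) : Prop :=
  ∃ Φ : MvPolynomial (Fin r × Fin 2) ℂ, Φ ≠ 0 ∧ ∀ Y : Fin r → Fin 2 → ℂ,
    MvPolynomial.eval (fun ij : Fin r × Fin 2 => Y ij.1 ij.2) Φ ≠ 0 →
      ∀ d ∈ S, IsAH Y m d ∧ Equivalence Y m d

/-- The triples of `r`, `1000 * lo r` and `1000 * up r`. -/
def table : List (ℕ × ℕ × ℕ) :=
  [(12, 155, 108), (14, 219, 106), (17, 562, 155), (18, 439, 187), (19, 567, 357), (20, 692, 192),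
    (22, 932, 420), (23, 838, 220), (24, 954, 308), (26, 982, 299)]

/-- the elementary facts on the entries of the table -/
theorem facts {r l u : ℕ} (h : (r, l, u) ∈ table) : r ∈ K7.H2.FO.listE ∧
    (1 - (K7.H2.FO.thrE r : ℝ) / 5000) * (Real.sqrt r - 3) ≤ l / 1000 ∧
    ((K7.H2.FO.thr r : ℝ) / 500 - 1) * (Real.sqrt r - 3) ≤ u / 1000 := by
  have key : ∀ (x : ℝ), (r : ℝ) ≤ x * x → 0 ≤ x → 500 ≤ (K7.H2.FO.thr r : ℝ) →
      (K7.H2.FO.thrE r : ℝ) ≤ 5000 →
      (1 - (K7.H2.FO.thrE r : ℝ) / 5000) * (x - 3) ≤ l / 1000 →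
      ((K7.H2.FO.thr r : ℝ) / 500 - 1) * (x - 3) ≤ u / 1000 →
      (1 - (K7.H2.FO.thrE r : ℝ) / 5000) * (Real.sqrt r - 3) ≤ l / 1000 ∧
      ((K7.H2.FO.thr r : ℝ) / 500 - 1) * (Real.sqrt r - 3) ≤ u / 1000 := by
    intro x h1 h2 h3 h3' h4' h4
    have h5 : Real.sqrt r ≤ x := Real.sqrt_le_iff.2 ⟨h2, by rw [pow_two]; exact h1⟩
    have h6 : ((K7.H2.FO.thr r : ℝ) / 500 - 1) * (Real.sqrt r - 3) ≤
        ((K7.H2.FO.thr r : ℝ) / 500 - 1) * (x - 3) :=
      mul_le_mul_of_nonneg_left (by linarith) (by linarith)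
    have h7 : (1 - (K7.H2.FO.thrE r : ℝ) / 5000) * (Real.sqrt r - 3) ≤
        (1 - (K7.H2.FO.thrE r : ℝ) / 5000) * (x - 3) :=
      mul_le_mul_of_nonneg_left (by linarith) (by linarith)
    exact ⟨by linarith, by linarith⟩
  simp only [table, List.mem_cons, Prod.mk.injEq, List.not_mem_nil, or_false] at h
  rcases h with ⟨rfl, rfl, rfl⟩ | ⟨rfl, rfl, rfl⟩ | ⟨rfl, rfl, rfl⟩ | ⟨rfl, rfl, rfl⟩ | ⟨rfl, rfl, rfl⟩ |
    ⟨rfl, rfl, rfl⟩ | ⟨rfl, rfl, rfl⟩ | ⟨rfl, rfl, rfl⟩ | ⟨rfl, rfl, rfl⟩ | ⟨rfl, rfl, rfl⟩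
  · exact ⟨by decide +kernel, key 3.46411 (by norm_num) (by norm_num) (by norm_num [K7.H2.FO.thr])
      (by norm_num [K7.H2.FO.thrE]) (by norm_num [K7.H2.FO.thrE]) (by norm_num [K7.H2.FO.thr])⟩
  · exact ⟨by decide +kernel, key 3.74166 (by norm_num) (by norm_num) (by norm_num [K7.H2.FO.thr])
      (by norm_num [K7.H2.FO.thrE]) (by norm_num [K7.H2.FO.thrE]) (by norm_num [K7.H2.FO.thr])⟩
  · exact ⟨by decide +kernel, key 4.12311 (by norm_num) (by norm_num) (by norm_num [K7.H2.FO.thr])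
      (by norm_num [K7.H2.FO.thrE]) (by norm_num [K7.H2.FO.thrE]) (by norm_num [K7.H2.FO.thr])⟩
  · exact ⟨by decide +kernel, key 4.24265 (by norm_num) (by norm_num) (by norm_num [K7.H2.FO.thr])
      (by norm_num [K7.H2.FO.thrE]) (by norm_num [K7.H2.FO.thrE]) (by norm_num [K7.H2.FO.thr])⟩
  · exact ⟨by decide +kernel, key 4.3589 (by norm_num) (by norm_num) (by norm_num [K7.H2.FO.thr])
      (by norm_num [K7.H2.FO.thrE]) (by norm_num [K7.H2.FO.thrE]) (by norm_num [K7.H2.FO.thr])⟩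
  · exact ⟨by decide +kernel, key 4.47214 (by norm_num) (by norm_num) (by norm_num [K7.H2.FO.thr])
      (by norm_num [K7.H2.FO.thrE]) (by norm_num [K7.H2.FO.thrE]) (by norm_num [K7.H2.FO.thr])⟩
  · exact ⟨by decide +kernel, key 4.69042 (by norm_num) (by norm_num) (by norm_num [K7.H2.FO.thr])
      (by norm_num [K7.H2.FO.thrE]) (by norm_num [K7.H2.FO.thrE]) (by norm_num [K7.H2.FO.thr])⟩
  · exact ⟨by decide +kernel, key 4.79584 (by norm_num) (by norm_num) (by norm_num [K7.H2.FO.thr])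
      (by norm_num [K7.H2.FO.thrE]) (by norm_num [K7.H2.FO.thrE]) (by norm_num [K7.H2.FO.thr])⟩
  · exact ⟨by decide +kernel, key 4.89898 (by norm_num) (by norm_num) (by norm_num [K7.H2.FO.thr])
      (by norm_num [K7.H2.FO.thrE]) (by norm_num [K7.H2.FO.thrE]) (by norm_num [K7.H2.FO.thr])⟩
  · exact ⟨by decide +kernel, key 5.09902 (by norm_num) (by norm_num) (by norm_num [K7.H2.FO.thr])
      (by norm_num [K7.H2.FO.thrE]) (by norm_num [K7.H2.FO.thrE]) (by norm_num [K7.H2.FO.thr])⟩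

theorem settled {r l u : ℕ} (h : (r, l, u) ∈ table) {m : ℕ} (hm : 43 ≤ m) :
    Settled r m {d | 2 * (d : ℝ) + 3 - Real.sqrt r * (2 * m + 1) < -(l / 1000) ∨
      (u : ℝ) / 1000 ≤ 2 * d + 3 - Real.sqrt r * (2 * m + 1)} := by
  obtain ⟨hr, hl, hu⟩ := facts h
  obtain ⟨hr10, hsq, -⟩ := K7.H2.FO.listE_facts hr
  obtain ⟨F, hF, hF'⟩ := K7.H2.FO.expDim_newE (L := ℂ) hr hm
  obtain ⟨Φ, hΦ, hΦ'⟩ := core hr10 (m := m)
    (S := {d : ℕ | 2 * (d : ℝ) + 3 - Real.sqrt r * (2 * m + 1) < -(l / 1000) ∨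
      (u : ℝ) / 1000 ≤ 2 * d + 3 - Real.sqrt r * (2 * m + 1)})
    ⟨F, hF, fun P hP d hd => by
      refine hF' P hP d ?_
      rcases hd with hd | hd
      · left
        linarith
      · right; right
        linarith⟩
  exact ⟨Φ, hΦ, fun Y hY d hd => (hΦ' Y hY).1 d hd⟩

theorem density {r l u : ℕ} (h : (r, l, u) ∈ table) {c : ℝ} (hc : ((l : ℝ) + u) / 2000 < c) :
    ∀ᶠ M : ℕ in atTop,
      (Set.ncard {m : ℕ | 1 ≤ m ∧ m < M ∧ ¬ Settled r m Set.univ} : ℝ) ≤ c * M := by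
  classical
  obtain ⟨hr, -, -⟩ := facts h
  obtain ⟨hr10, hsq, -⟩ := K7.H2.FO.listE_facts hr
  have hirr : Irrational (Real.sqrt r) := irrational_sqrt_natCast_iff.2 hsq
  obtain ⟨c', hc1, hc2⟩ := exists_between hc
  obtain ⟨M0, hM0⟩ := TH885.NW.count_sharp hirr ((Real.sqrt r - 3) / 2) ((l : ℝ) / 1000 / 2)
    (u / 1000 / 2) (by positivity) (sub_pos.2 hc1)
  filter_upwards [eventually_ge_atTop ⌈M0⌉₊, eventually_ge_atTop ⌈43 / (c - c')⌉₊] with M hM hM1
  have hM' : M0 ≤ M := (Nat.le_ceil M0).trans (by exact_mod_cast hM)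
  have hM1' : 43 / (c - c') ≤ M := (Nat.le_ceil _).trans (by exact_mod_cast hM1)
  rw [div_le_iff₀ (by linarith)] at hM1'
  have hset : {m : ℕ | 1 ≤ m ∧ m < M ∧ ¬ Settled r m Set.univ} =
      ↑((Finset.range M).filter fun m => 1 ≤ m ∧ ¬ Settled r m Set.univ) := by
    ext m
    simp only [Set.mem_ofPred_eq, Finset.coe_filter, Finset.mem_range]
    tauto
  rw [hset, Set.ncard_coe_finset]
  have h1 := hM0 M hM' ((Finset.range M).filter fun m => 43 ≤ m ∧ ¬ Settled r m Set.univ)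
    (fun m hm => Finset.mem_range.1 (Finset.mem_filter.1 hm).1) (fun m hm => by
      obtain ⟨h2, h3⟩ := (Finset.mem_filter.1 hm).2
      by_contra hcon
      push Not at hcon
      apply h3
      obtain ⟨Φ, hΦ, hΦ'⟩ := settled h h2
      refine ⟨Φ, hΦ, fun Y hY d _ => hΦ' Y hY d ?_⟩
      rcases lt_or_ge (2 * (d : ℝ) + 3 - Real.sqrt r * (2 * m + 1)) (-(l / 1000)) with h4 | h4
      · exact Or.inl h4
      · right
        have h5 := hcon d (by push_cast; linarith)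
        push_cast at h5
        linarith)
  have e : (l : ℝ) / 1000 / 2 + (u : ℝ) / 1000 / 2 + (c' - (l + u) / 2000) = c' := by ring
  rw [e] at h1
  have h2 : ((Finset.range M).filter fun m => 1 ≤ m ∧ ¬ Settled r m Set.univ).card ≤
      ((Finset.range M).filter fun m => 43 ≤ m ∧ ¬ Settled r m Set.univ).card + 43 := by
    have h3 : ((Finset.range M).filter fun m => 1 ≤ m ∧ ¬ Settled r m Set.univ) ⊆
        ((Finset.range M).filter fun m => 43 ≤ m ∧ ¬ Settled r m Set.univ) ∪ Finset.range 43 := by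
      intro m hm
      simp only [Finset.mem_union, Finset.mem_filter, Finset.mem_range] at hm ⊢
      rcases lt_or_ge m 43 with h4 | h4
      · exact Or.inr h4
      · exact Or.inl ⟨hm.1, h4, hm.2.2⟩
    have h4 := Finset.card_le_card h3
    have h5 := Finset.card_union_le
      ((Finset.range M).filter fun m => 43 ≤ m ∧ ¬ Settled r m Set.univ) (Finset.range 43)
    rw [Finset.card_range] at h5
    omega
  have h2R : (((Finset.range M).filter fun m => 1 ≤ m ∧ ¬ Settled r m Set.univ).card : ℝ) ≤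
      ((Finset.range M).filter fun m => 43 ≤ m ∧ ¬ Settled r m Set.univ).card + 43 := by
    exact_mod_cast h2
  linarith

/-- **Q1 for ten numbers of points: the lower end of the open window.** -/
theorem result :
    (∀ r l u : ℕ, (r, l, u) ∈ table → ∀ m : ℕ, 43 ≤ m →
      Settled r m {d | 2 * (d : ℝ) + 3 - Real.sqrt r * (2 * m + 1) < -(l / 1000)}) ∧
    (∀ r l u : ℕ, (r, l, u) ∈ table → ∀ c : ℝ, ((l : ℝ) + u) / 2000 < c → ∀ᶠ M : ℕ in atTop,
      (Set.ncard {m : ℕ | 1 ≤ m ∧ m < M ∧ ¬ Settled r m Set.univ} : ℝ) ≤ c * M) :=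
  ⟨fun _ _ _ h _ hm => by
    obtain ⟨Φ, hΦ, hΦ'⟩ := settled h hm
    exact ⟨Φ, hΦ, fun Y hY d hd => hΦ' Y hY d (Or.inl hd)⟩, fun _ _ _ h _ hc => density h hc⟩

end Pool.Agent.Results.MP_8707bd_ag.EmptinessUpTo26
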