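import Mathlib
import Pool.Agent.TH387.EX.Core
import Pool.Agent.K7.H2.FO.Final
import Pool.Agent.TH885.NW.Prop

set_option autoImplicit false

/-!
# Q1 for nineteen numbers of points between 12 and 35: independence from `t = up r` on

Write `t = (2 d + 3) - √r (2 m + 1)`. For `r` general points of multiplicity `m ≥ 1` and
`r = 12, 14, 17, …, 20, 22, 23, 24, 26, …, 35`, the scheme `m Y` is `AH₂(d)` and the equivalence of Q1
holds for all `d` with `t ≥ up r` (and for `t < - low r`), where `up r` is between `0.106` and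
`0.473`. In particular the upper density of the multiplicities which are not settled in every degree
is at most `(low r + up r) / 2`.
-/

namespace Pool.Agent.Results.MP_8707bd_ag.IndependenceUpTo35

open MvPolynomial Pool.Agent.TH387.EX Filter

/-- For a general set `Y` of `r` points (one nonempty open set), `m Y` is `AH₂(d)` and the equivalence
of Q1 holds for all degrees `d` in the set `S`. -/
def Settled (r m : ℕ) (S : Set ℕ) : Prop :=
  ∃ Φ : MvPolynomial (Fin r × Fin 2) ℂ, Φ ≠ 0 ∧ ∀ Y : Fin r → Fin 2 → ℂ,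
    MvPolynomial.eval (fun ij : Fin r × Fin 2 => Y ij.1 ij.2) Φ ≠ 0 →
      ∀ d ∈ S, IsAH Y m d ∧ Equivalence Y m d

/-- the lower end of the window of open degrees -/
noncomputable def low (r : ℕ) : ℝ :=
  min (Real.sqrt r - 3) (2 / 3 + 9 / (4 * Real.sqrt r))

/-- The pairs of `r` and `1000 * up r`, the upper end of the window of open degrees. -/
def table : List (ℕ × ℕ) :=
  [(12, 108), (14, 106), (17, 155), (18, 187), (19, 357), (20, 192), (22, 420), (23, 220), (24, 308),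
    (26, 299), (27, 304), (28, 473), (29, 377), (30, 318), (31, 365), (32, 468), (33, 335), (34, 244),
    (35, 292)]

/-- the elementary facts on the entries of the table: not a square and the threshold -/
theorem facts {r u : ℕ} (h : (r, u) ∈ table) : 10 ≤ r ∧ ¬ IsSquare r ∧
    ((K7.H2.FO.thr r : ℝ) / 500 - 1) * (Real.sqrt r - 3) ≤ u / 1000 := by
  have key : ∀ (x : ℝ), (r : ℝ) ≤ x * x → 0 ≤ x → 500 ≤ (K7.H2.FO.thr r : ℝ) →
      ((K7.H2.FO.thr r : ℝ) / 500 - 1) * (x - 3) ≤ u / 1000 →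
      ((K7.H2.FO.thr r : ℝ) / 500 - 1) * (Real.sqrt r - 3) ≤ u / 1000 := by
    intro x h1 h2 h3 h4
    have h5 : Real.sqrt r ≤ x := Real.sqrt_le_iff.2 ⟨h2, by rw [pow_two]; exact h1⟩
    have h6 : ((K7.H2.FO.thr r : ℝ) / 500 - 1) * (Real.sqrt r - 3) ≤
        ((K7.H2.FO.thr r : ℝ) / 500 - 1) * (x - 3) :=
      mul_le_mul_of_nonneg_left (by linarith) (by linarith)
    linarith
  simp only [table, List.mem_cons, Prod.mk.injEq, List.not_mem_nil, or_false] at h
  rcases h with ⟨rfl, rfl⟩ | ⟨rfl, rfl⟩ | ⟨rfl, rfl⟩ | ⟨rfl, rfl⟩ | ⟨rfl, rfl⟩ | ⟨rfl, rfl⟩ |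
    ⟨rfl, rfl⟩ | ⟨rfl, rfl⟩ | ⟨rfl, rfl⟩ | ⟨rfl, rfl⟩ | ⟨rfl, rfl⟩ | ⟨rfl, rfl⟩ | ⟨rfl, rfl⟩ |
    ⟨rfl, rfl⟩ | ⟨rfl, rfl⟩ | ⟨rfl, rfl⟩ | ⟨rfl, rfl⟩ | ⟨rfl, rfl⟩ | ⟨rfl, rfl⟩
  · exact ⟨by norm_num, by decide +kernel, key 3.46411 (by norm_num) (by norm_num)
      (by norm_num [K7.H2.FO.thr]) (by norm_num [K7.H2.FO.thr])⟩
  · exact ⟨by norm_num, by decide +kernel, key 3.74166 (by norm_num) (by norm_num)
      (by norm_num [K7.H2.FO.thr]) (by norm_num [K7.H2.FO.thr])⟩
  · exact ⟨by norm_num, by decide +kernel, key 4.12311 (by norm_num) (by norm_num)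
      (by norm_num [K7.H2.FO.thr]) (by norm_num [K7.H2.FO.thr])⟩
  · exact ⟨by norm_num, by decide +kernel, key 4.24265 (by norm_num) (by norm_num)
      (by norm_num [K7.H2.FO.thr]) (by norm_num [K7.H2.FO.thr])⟩
  · exact ⟨by norm_num, by decide +kernel, key 4.3589 (by norm_num) (by norm_num)
      (by norm_num [K7.H2.FO.thr]) (by norm_num [K7.H2.FO.thr])⟩
  · exact ⟨by norm_num, by decide +kernel, key 4.47214 (by norm_num) (by norm_num)
      (by norm_num [K7.H2.FO.thr]) (by norm_num [K7.H2.FO.thr])⟩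
  · exact ⟨by norm_num, by decide +kernel, key 4.69042 (by norm_num) (by norm_num)
      (by norm_num [K7.H2.FO.thr]) (by norm_num [K7.H2.FO.thr])⟩
  · exact ⟨by norm_num, by decide +kernel, key 4.79584 (by norm_num) (by norm_num)
      (by norm_num [K7.H2.FO.thr]) (by norm_num [K7.H2.FO.thr])⟩
  · exact ⟨by norm_num, by decide +kernel, key 4.89898 (by norm_num) (by norm_num)
      (by norm_num [K7.H2.FO.thr]) (by norm_num [K7.H2.FO.thr])⟩
  · exact ⟨by norm_num, by decide +kernel, key 5.09902 (by norm_num) (by norm_num)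
      (by norm_num [K7.H2.FO.thr]) (by norm_num [K7.H2.FO.thr])⟩
  · exact ⟨by norm_num, by decide +kernel, key 5.19616 (by norm_num) (by norm_num)
      (by norm_num [K7.H2.FO.thr]) (by norm_num [K7.H2.FO.thr])⟩
  · exact ⟨by norm_num, by decide +kernel, key 5.29151 (by norm_num) (by norm_num)
      (by norm_num [K7.H2.FO.thr]) (by norm_num [K7.H2.FO.thr])⟩
  · exact ⟨by norm_num, by decide +kernel, key 5.38517 (by norm_num) (by norm_num)
      (by norm_num [K7.H2.FO.thr]) (by norm_num [K7.H2.FO.thr])⟩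
  · exact ⟨by norm_num, by decide +kernel, key 5.47723 (by norm_num) (by norm_num)
      (by norm_num [K7.H2.FO.thr]) (by norm_num [K7.H2.FO.thr])⟩
  · exact ⟨by norm_num, by decide +kernel, key 5.56777 (by norm_num) (by norm_num)
      (by norm_num [K7.H2.FO.thr]) (by norm_num [K7.H2.FO.thr])⟩
  · exact ⟨by norm_num, by decide +kernel, key 5.65686 (by norm_num) (by norm_num)
      (by norm_num [K7.H2.FO.thr]) (by norm_num [K7.H2.FO.thr])⟩
  · exact ⟨by norm_num, by decide +kernel, key 5.74457 (by norm_num) (by norm_num)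
      (by norm_num [K7.H2.FO.thr]) (by norm_num [K7.H2.FO.thr])⟩
  · exact ⟨by norm_num, by decide +kernel, key 5.83096 (by norm_num) (by norm_num)
      (by norm_num [K7.H2.FO.thr]) (by norm_num [K7.H2.FO.thr])⟩
  · exact ⟨by norm_num, by decide +kernel, key 5.91608 (by norm_num) (by norm_num)
      (by norm_num [K7.H2.FO.thr]) (by norm_num [K7.H2.FO.thr])⟩

theorem settled {r u : ℕ} (h : (r, u) ∈ table) {m : ℕ} (hm : 1 ≤ m) :
    Settled r m {d | 2 * (d : ℝ) + 3 - Real.sqrt r * (2 * m + 1) < -low r ∨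
      (u : ℝ) / 1000 ≤ 2 * d + 3 - Real.sqrt r * (2 * m + 1)} := by
  obtain ⟨hr, hsq, hu⟩ := facts h
  obtain ⟨F, hF, hF'⟩ := K7.H2.FO.expDim_new (L := ℂ) hr hsq hm
  obtain ⟨Φ, hΦ, hΦ'⟩ := core hr (m := m)
    (S := {d : ℕ | 2 * (d : ℝ) + 3 - Real.sqrt r * (2 * m + 1) < -low r ∨
      (u : ℝ) / 1000 ≤ 2 * d + 3 - Real.sqrt r * (2 * m + 1)})
    ⟨F, hF, fun P hP d hd => by
      refine hF' P hP d ?_
      rcases hd with hd | hd
      · left
        unfold low at hd
        linarith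
      · right; right
        linarith⟩
  exact ⟨Φ, hΦ, fun Y hY d hd => (hΦ' Y hY).1 d hd⟩

theorem density {r u : ℕ} (h : (r, u) ∈ table) {c : ℝ} (hc : (low r + u / 1000) / 2 < c) :
    ∀ᶠ M : ℕ in atTop,
      (Set.ncard {m : ℕ | 1 ≤ m ∧ m < M ∧ ¬ Settled r m Set.univ} : ℝ) ≤ c * M := by
  classical
  obtain ⟨hr, hsq, -⟩ := facts h
  have hirr : Irrational (Real.sqrt r) := irrational_sqrt_natCast_iff.2 hsq
  have hlow : 0 ≤ low r := by
    have h1 : 3 ≤ Real.sqrt r := Real.le_sqrt_of_sq_le (by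
      have : (10 : ℝ) ≤ r := by exact_mod_cast hr
      linarith)
    unfold low
    exact le_min (by linarith) (by positivity)
  have hu0 : (0 : ℝ) ≤ (u : ℝ) / 1000 := by positivity
  obtain ⟨M0, hM0⟩ := TH885.NW.count_sharp hirr ((Real.sqrt r - 3) / 2) (low r / 2) (u / 1000 / 2)
    (by linarith) (sub_pos.2 hc)
  filter_upwards [eventually_ge_atTop ⌈M0⌉₊] with M hM
  have hM' : M0 ≤ M := (Nat.le_ceil M0).trans (by exact_mod_cast hM)
  have hset : {m : ℕ | 1 ≤ m ∧ m < M ∧ ¬ Settled r m Set.univ} =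
      ↑((Finset.range M).filter fun m => 1 ≤ m ∧ ¬ Settled r m Set.univ) := by
    ext m
    simp only [Set.mem_ofPred_eq, Finset.coe_filter, Finset.mem_range]
    tauto
  rw [hset, Set.ncard_coe_finset]
  have h1 := hM0 M hM' ((Finset.range M).filter fun m => 1 ≤ m ∧ ¬ Settled r m Set.univ)
    (fun m hm => Finset.mem_range.1 (Finset.mem_filter.1 hm).1) (fun m hm => by
      obtain ⟨h2, h3⟩ := (Finset.mem_filter.1 hm).2
      by_contra hcon
      push Not at hcon
      apply h3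
      obtain ⟨Φ, hΦ, hΦ'⟩ := settled h h2
      refine ⟨Φ, hΦ, fun Y hY d _ => hΦ' Y hY d ?_⟩
      rcases lt_or_ge (2 * (d : ℝ) + 3 - Real.sqrt r * (2 * m + 1)) (-low r) with h4 | h4
      · exact Or.inl h4
      · right
        have h5 := hcon d (by push_cast; linarith)
        push_cast at h5
        linarith)
  have e : low r / 2 + (u : ℝ) / 1000 / 2 + (c - (low r + u / 1000) / 2) = c := by ring
  rw [e] at h1
  exact h1

/-- **Q1 for nineteen numbers of points: the upper end of the open window.** -/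
theorem result :
    (∀ r u : ℕ, (r, u) ∈ table → ∀ m : ℕ, 1 ≤ m →
      Settled r m {d | 2 * (d : ℝ) + 3 - Real.sqrt r * (2 * m + 1) < -low r ∨
        (u : ℝ) / 1000 ≤ 2 * d + 3 - Real.sqrt r * (2 * m + 1)}) ∧
    (∀ r u : ℕ, (r, u) ∈ table → ∀ c : ℝ, (low r + u / 1000) / 2 < c → ∀ᶠ M : ℕ in atTop,
      (Set.ncard {m : ℕ | 1 ≤ m ∧ m < M ∧ ¬ Settled r m Set.univ} : ℝ) ≤ c * M) :=
  ⟨fun _ _ h _ hm => settled h hm, fun _ _ h _ hc => density h hc⟩

end Pool.Agent.Results.MP_8707bd_ag.IndependenceUpTo35
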